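import Mathlib

set_option autoImplicit false

open MeasureTheory Set Filter Matrix

namespace Pool.Agent.Results.MP_441052_gt.ThickenedTorus

/-- Points `(t, x, y)` of the universal cover of the thickened torus `M = [0,1] × (ℝ/ℤ)²`.
`M` consists of the points with `0 ≤ t ≤ 1`, the coordinates `x` and `y` being taken modulo `1`.
It is a compact connected smooth `3`-manifold, its boundary is the union of the two tori
`t = 0` and `t = 1`. -/
abbrev P : Type := ℝ × ℝ × ℝ

/-- `f` is `1`-periodic in `x` and in `y`, that is, it is defined on `M`. -/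
def Periodic {β : Type*} (f : P → β) : Prop :=
  ∀ t x y : ℝ, f (t, x + 1, y) = f (t, x, y) ∧ f (t, x, y + 1) = f (t, x, y)

/-- A smooth Riemannian metric on `M`, given by its matrix in the coordinates `t, x, y`. -/
structure IsMetric (G : P → Matrix (Fin 3) (Fin 3) ℝ) : Prop where
  smooth : ∀ i j : Fin 3, ContDiff ℝ (⊤ : ℕ∞) (fun p => G p i j)
  periodic : Periodic G
  posDef : ∀ p : P, p.1 ∈ Icc (0 : ℝ) 1 → (G p).PosDef

/-- A fundamental domain for `M`: the unit cube. -/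
def cell : Set P := Icc (0 : ℝ) 1 ×ˢ Icc (0 : ℝ) 1 ×ˢ Icc (0 : ℝ) 1

/-- A fundamental domain for a torus `(ℝ/ℤ)²`: the unit square. -/
def square : Set (ℝ × ℝ) := Icc (0 : ℝ) 1 ×ˢ Icc (0 : ℝ) 1

/-- The integral of `f` over `M` with respect to the Riemannian volume of `G`. -/
noncomputable def volInt (G : P → Matrix (Fin 3) (Fin 3) ℝ) (f : P → ℝ) : ℝ :=
  ∫ p in cell, f p * Real.sqrt (G p).det

/-- The matrix of the metric induced on the tori `t = const`, in the coordinates `x, y`. -/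
def tang (A : Matrix (Fin 3) (Fin 3) ℝ) : Matrix (Fin 2) (Fin 2) ℝ :=
  A.submatrix Fin.succ Fin.succ

/-- The integral of `f` over `∂M` with respect to the area of the induced metric. -/
noncomputable def bdryInt (G : P → Matrix (Fin 3) (Fin 3) ℝ) (f : P → ℝ) : ℝ :=
  (∫ q in square, f (0, q) * Real.sqrt (tang (G (0, q))).det) +
    ∫ q in square, f (1, q) * Real.sqrt (tang (G (1, q))).det

/-- The differential of `u` in the coordinates `t, x, y`. -/
noncomputable def du (u : P → ℝ) (p : P) : Fin 3 → ℝ :=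
  ![fderiv ℝ u p (1, 0, 0), fderiv ℝ u p (0, 1, 0), fderiv ℝ u p (0, 0, 1)]

/-- `|∇u|²` for the metric `G`. -/
noncomputable def gradSq (G : P → Matrix (Fin 3) (Fin 3) ℝ) (u : P → ℝ) (p : P) : ℝ :=
  du u p ⬝ᵥ ((G p)⁻¹ *ᵥ du u p)

/-- Test functions: `u` is a `C¹` function on `M`, not identically zero on `∂M`, with mean value
zero on `∂M`. -/
structure IsTest (G : P → Matrix (Fin 3) (Fin 3) ℝ) (u : P → ℝ) : Prop where
  contDiff : ContDiff ℝ 1 u
  periodic : Periodic u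
  mean : bdryInt G u = 0
  ne_zero : bdryInt G (fun p => u p ^ 2) ≠ 0

/-- The first nonzero Steklov eigenvalue `σ₁(M, G)`: the infimum of the Rayleigh quotients
`∫_M |∇u|² dV / ∫_{∂M} u² dA` over all test functions. -/
noncomputable def sigma1 (G : P → Matrix (Fin 3) (Fin 3) ℝ) : ℝ :=
  sInf {r : ℝ | ∃ u : P → ℝ, IsTest G u ∧
    r = volInt G (gradSq G u) / bdryInt G (fun p => u p ^ 2)}

/-! ### The metrics -/

/-- The stretching factor. -/
noncomputable def K (n : ℕ) (t : ℝ) : ℝ := Real.exp (4 * (n : ℝ) * Real.sin (2 * Real.pi * t))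

/-- `g_n = n⁻² dt² + K⁻¹ dx² + K dy²`. -/
noncomputable def metric (n : ℕ) (p : P) : Matrix (Fin 3) (Fin 3) ℝ :=
  Matrix.diagonal ![((n : ℝ) + 1)⁻¹ ^ 2, (K n p.1)⁻¹, K n p.1]

lemma K_pos (n : ℕ) (t : ℝ) : 0 < K n t := Real.exp_pos _

lemma K_cont (n : ℕ) : Continuous (K n) := by
  unfold K; fun_prop

lemma isMetric (n : ℕ) : IsMetric (metric n) where
  smooth := by
    intro i j
    have hK : ContDiff ℝ (⊤ : ℕ∞) (fun p : P => K n p.1) := by
      unfold K
      fun_prop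
    have hKi : ContDiff ℝ (⊤ : ℕ∞) (fun p : P => (K n p.1)⁻¹) :=
      hK.inv (fun p => (K_pos n p.1).ne')
    fin_cases i <;> fin_cases j <;> simp [metric, Matrix.diagonal, contDiff_const, hK, hKi]
  periodic := by
    intro t x y
    exact ⟨rfl, rfl⟩
  posDef := by
    intro p _
    unfold metric
    rw [Matrix.posDef_diagonal_iff]
    intro i
    have := K_pos n p.1
    fin_cases i
    · simp; positivity
    · simpa using this
    · simpa using this


/-! ### Calculus -/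

/-- Shorthand for the integral over the unit interval. -/
noncomputable def Jn (f : ℝ → ℝ) : ℝ := ∫ x in (0 : ℝ)..1, f x

lemma Jn_mono {f g : ℝ → ℝ} (hf : Continuous f) (hg : Continuous g)
    (h : ∀ x ∈ Icc (0 : ℝ) 1, f x ≤ g x) : Jn f ≤ Jn g :=
  intervalIntegral.integral_mono_on zero_le_one (hf.intervalIntegrable _ _)
    (hg.intervalIntegrable _ _) h

lemma Jn_add {f g : ℝ → ℝ} (hf : Continuous f) (hg : Continuous g) :
    Jn (fun x => f x + g x) = Jn f + Jn g :=
  intervalIntegral.integral_add (hf.intervalIntegrable _ _) (hg.intervalIntegrable _ _)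

lemma Jn_const (c : ℝ) : Jn (fun _ => c) = c := by simp [Jn]

lemma Jn_mul (c : ℝ) (f : ℝ → ℝ) : Jn (fun x => c * f x) = c * Jn f := by simp [Jn]

lemma Jn_cont {f : ℝ → ℝ → ℝ} (hf : Continuous (fun p : ℝ × ℝ => f p.1 p.2)) :
    Continuous (fun x => Jn (f x)) := by
  unfold Jn
  exact intervalIntegral.continuous_parametric_intervalIntegral_of_continuous' hf _ _

lemma Jn_swap {f : ℝ → ℝ → ℝ} (hf : Continuous (fun p : ℝ × ℝ => f p.1 p.2)) :
    Jn (fun x => Jn (fun y => f x y)) = Jn (fun y => Jn (fun x => f x y)) := by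
  unfold Jn
  apply intervalIntegral_intervalIntegral_swap
  rw [uIoc_of_le zero_le_one]
  exact ((show Continuous (Function.uncurry f) from hf).continuousOn.integrableOn_compact
    (isCompact_Icc.prod isCompact_Icc)).mono_set
    (Set.prod_mono Ioc_subset_Icc_self Ioc_subset_Icc_self)

lemma ftc_sq (g g' : ℝ → ℝ) (hg : ∀ t, HasDerivAt g (g' t) t) (hc : Continuous g') {a b : ℝ}
    (ha : a ∈ Icc (0 : ℝ) 1) (hb : b ∈ Icc (0 : ℝ) 1) :
    (g a - g b) ^ 2 ≤ Jn (fun t => g' t ^ 2) := by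
  wlog hab : a ≤ b generalizing a b
  · have := this hb ha (le_of_not_ge hab)
    calc (g a - g b) ^ 2 = (g b - g a) ^ 2 := by ring
      _ ≤ _ := this
  have h1 : ∫ t in a..b, g' t = g b - g a :=
    intervalIntegral.integral_eq_sub_of_hasDerivAt (fun t _ => hg t) (hc.intervalIntegrable _ _)
  set I := g b - g a with hI
  have h2 : 0 ≤ ∫ t in a..b, (g' t - I) ^ 2 :=
    intervalIntegral.integral_nonneg hab (fun t _ => sq_nonneg _)
  have h3 : ∫ t in a..b, (g' t - I) ^ 2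
      = (∫ t in a..b, g' t ^ 2) - 2 * I * (∫ t in a..b, g' t) + I ^ 2 * (b - a) := by
    have : (fun t => (g' t - I) ^ 2) = fun t => (g' t ^ 2 - (2 * I) * g' t) + I ^ 2 := by
      funext t; ring
    rw [this, intervalIntegral.integral_add, intervalIntegral.integral_sub,
      intervalIntegral.integral_const_mul, intervalIntegral.integral_const]
    · simp only [smul_eq_mul]; ring
    all_goals exact Continuous.intervalIntegrable (by fun_prop) _ _
  rw [h3, h1] at h2
  have h4 : ∫ t in a..b, g' t ^ 2 ≤ Jn (fun t => g' t ^ 2) := by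
    unfold Jn
    apply intervalIntegral.integral_mono_interval ha.1 hab hb.2
    · exact Eventually.of_forall (fun t => sq_nonneg _)
    · exact Continuous.intervalIntegrable (by fun_prop) _ _
  have h5 : b - a ≤ 1 := by linarith [ha.1, hb.2]
  have h6 : 0 ≤ I ^ 2 := sq_nonneg _
  nlinarith [h2, h4, h5, h6]

lemma five_sq (a b c d e : ℝ) :
    (a + b + c + d + e) ^ 2 ≤ 5 * (a ^ 2 + b ^ 2 + c ^ 2 + d ^ 2 + e ^ 2) := by
  nlinarith [sq_nonneg (a - b), sq_nonneg (a - c), sq_nonneg (a - d), sq_nonneg (a - e),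
    sq_nonneg (b - c), sq_nonneg (b - d), sq_nonneg (b - e), sq_nonneg (c - d),
    sq_nonneg (c - e), sq_nonneg (d - e)]

section

variable {u : P → ℝ} (hu : ContDiff ℝ 1 u)

include hu

lemma cont_dir (v : P) : Continuous (fun p => fderiv ℝ u p v) :=
  (hu.continuous_fderiv (by norm_num)).clm_apply continuous_const

lemma deriv_t (x y t : ℝ) :
    HasDerivAt (fun t => u (t, x, y)) (fderiv ℝ u (t, x, y) (1, 0, 0)) t := by
  have h := ((hu.differentiable (by norm_num)) (t, x, y)).hasFDerivAt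
  have h2 : HasDerivAt (fun t : ℝ => ((t, x, y) : P)) (1, 0, 0) t :=
    (hasDerivAt_id t).prodMk ((hasDerivAt_const t x).prodMk (hasDerivAt_const t y))
  exact h.comp_hasDerivAt t h2

lemma deriv_x (s y x : ℝ) :
    HasDerivAt (fun x => u (s, x, y)) (fderiv ℝ u (s, x, y) (0, 1, 0)) x := by
  have h := ((hu.differentiable (by norm_num)) (s, x, y)).hasFDerivAt
  have h2 : HasDerivAt (fun x : ℝ => ((s, x, y) : P)) (0, 1, 0) x :=
    (hasDerivAt_const x s).prodMk ((hasDerivAt_id x).prodMk (hasDerivAt_const x y))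
  exact h.comp_hasDerivAt x h2

lemma deriv_y (s x y : ℝ) :
    HasDerivAt (fun y => u (s, x, y)) (fderiv ℝ u (s, x, y) (0, 0, 1)) y := by
  have h := ((hu.differentiable (by norm_num)) (s, x, y)).hasFDerivAt
  have h2 : HasDerivAt (fun y : ℝ => ((s, x, y) : P)) (0, 0, 1) y :=
    (hasDerivAt_const y s).prodMk ((hasDerivAt_const y x).prodMk (hasDerivAt_id y))
  exact h.comp_hasDerivAt y h2

/-- The pointwise path inequality. -/
lemma path_ineq {t0 t1 s s' x0 y0 x1 y1 : ℝ} (ht0 : t0 ∈ Icc (0 : ℝ) 1) (ht1 : t1 ∈ Icc (0 : ℝ) 1)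
    (hs : s ∈ Icc (0 : ℝ) 1) (hs' : s' ∈ Icc (0 : ℝ) 1) (hx0 : x0 ∈ Icc (0 : ℝ) 1)
    (hy0 : y0 ∈ Icc (0 : ℝ) 1) (hx1 : x1 ∈ Icc (0 : ℝ) 1) (hy1 : y1 ∈ Icc (0 : ℝ) 1) :
    (u (t0, x0, y0) - u (t1, x1, y1)) ^ 2 ≤ 5 * (
      Jn (fun t => fderiv ℝ u (t, x0, y0) (1, 0, 0) ^ 2) +
      Jn (fun x => fderiv ℝ u (s, x, y0) (0, 1, 0) ^ 2) +
      Jn (fun t => fderiv ℝ u (t, x1, y0) (1, 0, 0) ^ 2) +
      Jn (fun y => fderiv ℝ u (s', x1, y) (0, 0, 1) ^ 2) +
      Jn (fun t => fderiv ℝ u (t, x1, y1) (1, 0, 0) ^ 2)) := by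
  have c1 : Continuous (fun t => fderiv ℝ u (t, x0, y0) (1, 0, 0)) :=
    (cont_dir hu _).comp (by fun_prop)
  have c2 : Continuous (fun x => fderiv ℝ u (s, x, y0) (0, 1, 0)) :=
    (cont_dir hu _).comp (by fun_prop)
  have c3 : Continuous (fun t => fderiv ℝ u (t, x1, y0) (1, 0, 0)) :=
    (cont_dir hu _).comp (by fun_prop)
  have c4 : Continuous (fun y => fderiv ℝ u (s', x1, y) (0, 0, 1)) :=
    (cont_dir hu _).comp (by fun_prop)
  have c5 : Continuous (fun t => fderiv ℝ u (t, x1, y1) (1, 0, 0)) :=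
    (cont_dir hu _).comp (by fun_prop)
  have h1 := ftc_sq _ _ (deriv_t hu x0 y0) c1 ht0 hs
  have h2 := ftc_sq _ _ (deriv_x hu s y0) c2 hx0 hx1
  have h3 := ftc_sq _ _ (deriv_t hu x1 y0) c3 hs hs'
  have h4 := ftc_sq _ _ (deriv_y hu s' x1) c4 hy0 hy1
  have h5 := ftc_sq _ _ (deriv_t hu x1 y1) c5 hs' ht1
  have h6 := five_sq (u (t0, x0, y0) - u (s, x0, y0)) (u (s, x0, y0) - u (s, x1, y0))
    (u (s, x1, y0) - u (s', x1, y0)) (u (s', x1, y0) - u (s', x1, y1))
    (u (s', x1, y1) - u (t1, x1, y1))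
  have h7 : u (t0, x0, y0) - u (s, x0, y0) + (u (s, x0, y0) - u (s, x1, y0)) +
    (u (s, x1, y0) - u (s', x1, y0)) + (u (s', x1, y0) - u (s', x1, y1)) +
    (u (s', x1, y1) - u (t1, x1, y1)) = u (t0, x0, y0) - u (t1, x1, y1) := by ring
  rw [h7] at h6
  linarith

end

/-- Integral over the unit square. -/
noncomputable def J2 (f : ℝ → ℝ → ℝ) : ℝ := Jn (fun x => Jn (fun y => f x y))

lemma J2_mono {f g : ℝ → ℝ → ℝ} (hf : Continuous (fun p : ℝ × ℝ => f p.1 p.2))
    (hg : Continuous (fun p : ℝ × ℝ => g p.1 p.2))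
    (h : ∀ x ∈ Icc (0 : ℝ) 1, ∀ y ∈ Icc (0 : ℝ) 1, f x y ≤ g x y) : J2 f ≤ J2 g := by
  apply Jn_mono (Jn_cont hf) (Jn_cont hg)
  intro x hx
  exact Jn_mono (hf.comp (by fun_prop : Continuous (fun y : ℝ => (x, y))))
    (hg.comp (by fun_prop : Continuous (fun y : ℝ => (x, y)))) (h x hx)

lemma J2_add {f g : ℝ → ℝ → ℝ} (hf : Continuous (fun p : ℝ × ℝ => f p.1 p.2))
    (hg : Continuous (fun p : ℝ × ℝ => g p.1 p.2)) :
    J2 (fun x y => f x y + g x y) = J2 f + J2 g := by
  unfold J2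
  have h : (fun x => Jn (fun y => f x y + g x y)) =
      fun x => Jn (fun y => f x y) + Jn (fun y => g x y) := by
    funext x
    exact Jn_add (hf.comp (by fun_prop : Continuous (fun y : ℝ => (x, y))))
      (hg.comp (by fun_prop : Continuous (fun y : ℝ => (x, y))))
  rw [h, Jn_add (Jn_cont hf) (Jn_cont hg)]

lemma J2_const (c : ℝ) : J2 (fun _ _ => c) = c := by simp [J2, Jn_const]

lemma J2_mul (c : ℝ) (f : ℝ → ℝ → ℝ) : J2 (fun x y => c * f x y) = c * J2 f := by
  simp [J2, Jn_mul]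

lemma J2_cont {α : Type*} [TopologicalSpace α] [FirstCountableTopology α] {f : α → ℝ → ℝ → ℝ}
    (hf : Continuous (fun p : (α × ℝ) × ℝ => f p.1.1 p.1.2 p.2)) :
    Continuous (fun a => J2 (f a)) := by
  unfold J2 Jn
  apply intervalIntegral.continuous_parametric_intervalIntegral_of_continuous'
  show Continuous (fun p : α × ℝ => ∫ y in (0 : ℝ)..1, f p.1 p.2 y)
  apply intervalIntegral.continuous_parametric_intervalIntegral_of_continuous'
  exact hf

lemma J2_sub_sq {a b : ℝ → ℝ → ℝ} (ha : Continuous (fun p : ℝ × ℝ => a p.1 p.2))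
    (hb : Continuous (fun p : ℝ × ℝ => b p.1 p.2)) :
    J2 (fun x0 y0 => J2 (fun x1 y1 => (a x0 y0 - b x1 y1) ^ 2)) =
      J2 (fun x y => a x y ^ 2) + J2 (fun x y => b x y ^ 2) - 2 * J2 a * J2 b := by
  have h1 : ∀ α : ℝ, J2 (fun x1 y1 => (α - b x1 y1) ^ 2) =
      α ^ 2 + ((-2 * J2 b) * α + J2 (fun x y => b x y ^ 2)) := by
    intro α
    have : (fun x1 y1 => (α - b x1 y1) ^ 2) =
        fun x1 y1 => α ^ 2 + ((-2 * α) * b x1 y1 + b x1 y1 ^ 2) := by
      funext x1 y1; ring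
    rw [this, J2_add continuous_const (by fun_prop), J2_const, J2_add (by fun_prop) (by fun_prop),
      J2_mul]
    ring
  simp_rw [h1]
  rw [J2_add (by fun_prop) (by fun_prop), J2_add (by fun_prop) (by fun_prop), J2_mul, J2_const]
  ring

section

variable {u : P → ℝ} (hu : ContDiff ℝ 1 u)

include hu

lemma main_ineq {t0 t1 s s' : ℝ} (ht0 : t0 ∈ Icc (0 : ℝ) 1) (ht1 : t1 ∈ Icc (0 : ℝ) 1)
    (hs : s ∈ Icc (0 : ℝ) 1) (hs' : s' ∈ Icc (0 : ℝ) 1) :
    J2 (fun x y => u (t0, x, y) ^ 2) + J2 (fun x y => u (t1, x, y) ^ 2)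
      - 2 * J2 (fun x y => u (t0, x, y)) * J2 (fun x y => u (t1, x, y)) ≤
    5 * (3 * J2 (fun x y => Jn (fun t => fderiv ℝ u (t, x, y) (1, 0, 0) ^ 2)) +
      J2 (fun x y => fderiv ℝ u (s, x, y) (0, 1, 0) ^ 2) +
      J2 (fun x y => fderiv ℝ u (s', x, y) (0, 0, 1) ^ 2)) := by
  have huc : Continuous u := hu.continuous
  set ut : P → ℝ := fun p => fderiv ℝ u p (1, 0, 0) with hut
  set ux : P → ℝ := fun p => fderiv ℝ u p (0, 1, 0) with hux
  set uy : P → ℝ := fun p => fderiv ℝ u p (0, 0, 1) with huy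
  have cut : Continuous ut := cont_dir hu _
  have cux : Continuous ux := cont_dir hu _
  have cuy : Continuous uy := cont_dir hu _
  rw [← J2_sub_sq (by fun_prop) (by fun_prop)]
  set PP : ℝ → ℝ → ℝ := fun x y => Jn (fun t => ut (t, x, y) ^ 2) with hPP
  set QQ : ℝ → ℝ := fun y => Jn (fun x => ux (s, x, y) ^ 2) with hQQ
  set RR : ℝ → ℝ := fun x => Jn (fun y => uy (s', x, y) ^ 2) with hRR
  have cPP : Continuous (fun p : ℝ × ℝ => PP p.1 p.2) := by
    rw [hPP]; unfold Jn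
    exact intervalIntegral.continuous_parametric_intervalIntegral_of_continuous'
      (show Continuous (fun q : (ℝ × ℝ) × ℝ => ut (q.2, q.1.1, q.1.2) ^ 2) by fun_prop) _ _
  have cQQ : Continuous QQ := by
    rw [hQQ]; unfold Jn
    exact intervalIntegral.continuous_parametric_intervalIntegral_of_continuous'
      (show Continuous (fun q : ℝ × ℝ => ux (s, q.2, q.1) ^ 2) by fun_prop) _ _
  have cRR : Continuous RR := by
    rw [hRR]; unfold Jn
    exact intervalIntegral.continuous_parametric_intervalIntegral_of_continuous'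
      (show Continuous (fun q : ℝ × ℝ => uy (s', q.1, q.2) ^ 2) by fun_prop) _ _
  have cPP1 : ∀ y0 : ℝ, Continuous (fun x1 => PP x1 y0) := fun y0 =>
    cPP.comp (by fun_prop : Continuous (fun x : ℝ => (x, y0)))
  have cPP2 : Continuous (fun y0 => Jn (fun x1 => PP x1 y0)) :=
    Jn_cont (f := fun y0 x1 => PP x1 y0) (cPP.comp continuous_swap)
  have step1 : ∀ x0 y0 : ℝ,
      J2 (fun x1 y1 => 5 * (PP x0 y0 + QQ y0 + PP x1 y0 + RR x1 + PP x1 y1)) =
      5 * (PP x0 y0 + QQ y0 + Jn (fun x1 => PP x1 y0) + Jn RR + J2 PP) := by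
    intro x0 y0
    rw [J2_mul]
    congr 1
    have c1 : Continuous (fun p : ℝ × ℝ => PP x0 y0 + QQ y0 + PP p.1 y0 + RR p.1) :=
      (continuous_const.add ((cPP1 y0).comp continuous_fst)).add (cRR.comp continuous_fst)
    rw [J2_add (f := fun x1 _ => PP x0 y0 + QQ y0 + PP x1 y0 + RR x1) (g := fun x1 y1 => PP x1 y1)
      c1 cPP]
    congr 1
    unfold J2
    simp_rw [Jn_const]
    rw [Jn_add (f := fun x => PP x0 y0 + QQ y0 + PP x y0) (continuous_const.add (cPP1 y0)) cRR,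
      Jn_add (f := fun _ => PP x0 y0 + QQ y0) continuous_const (cPP1 y0), Jn_const]
  have step2 : J2 (fun x0 y0 => 5 * (PP x0 y0 + QQ y0 + Jn (fun x1 => PP x1 y0) + Jn RR + J2 PP)) =
      5 * (J2 PP + Jn QQ + J2 PP + Jn RR + J2 PP) := by
    rw [J2_mul]
    congr 1
    have c2 : Continuous (fun p : ℝ × ℝ => QQ p.2) := cQQ.comp continuous_snd
    have c3 : Continuous (fun p : ℝ × ℝ => Jn (fun x1 => PP x1 p.2)) := cPP2.comp continuous_snd
    rw [J2_add (f := fun x0 y0 => PP x0 y0 + QQ y0 + Jn (fun x1 => PP x1 y0) + Jn RR)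
      (g := fun _ _ => J2 PP) (((cPP.add c2).add c3).add continuous_const) continuous_const,
      J2_add (f := fun x0 y0 => PP x0 y0 + QQ y0 + Jn (fun x1 => PP x1 y0))
      (g := fun _ _ => Jn RR) ((cPP.add c2).add c3) continuous_const,
      J2_add (f := fun x0 y0 => PP x0 y0 + QQ y0)
      (g := fun _ y0 => Jn (fun x1 => PP x1 y0)) (cPP.add c2) c3,
      J2_add (f := fun x0 y0 => PP x0 y0) (g := fun _ y0 => QQ y0) cPP c2, J2_const, J2_const]
    have e1 : J2 (fun _ y0 => QQ y0) = Jn QQ := by unfold J2; rw [Jn_const]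
    have e2 : J2 (fun _ y0 => Jn (fun x1 => PP x1 y0)) = J2 PP := by
      unfold J2; rw [Jn_const]
      exact (Jn_swap cPP).symm
    rw [e1, e2]
  have e3 : Jn QQ = J2 (fun x y => ux (s, x, y) ^ 2) := by
    rw [hQQ]; unfold J2
    exact (Jn_swap (f := fun x y => ux (s, x, y) ^ 2) (by fun_prop)).symm
  have e4 : Jn RR = J2 (fun x y => uy (s', x, y) ^ 2) := rfl
  calc J2 (fun x0 y0 => J2 (fun x1 y1 => (u (t0, x0, y0) - u (t1, x1, y1)) ^ 2))
      ≤ J2 (fun x0 y0 => J2 (fun x1 y1 =>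
          5 * (PP x0 y0 + QQ y0 + PP x1 y0 + RR x1 + PP x1 y1))) := by
        apply J2_mono
        · apply J2_cont (α := ℝ × ℝ)
            (f := fun p x1 y1 => (u (t0, p.1, p.2) - u (t1, x1, y1)) ^ 2)
          fun_prop
        · simp_rw [step1]
          exact continuous_const.mul ((((cPP.add (cQQ.comp continuous_snd)).add
            (cPP2.comp continuous_snd)).add continuous_const).add continuous_const)
        · intro x0 hx0 y0 hy0
          apply J2_mono
          · fun_prop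
          · exact continuous_const.mul (((continuous_const.add ((cPP1 y0).comp continuous_fst)).add
              (cRR.comp continuous_fst)).add cPP)
          · intro x1 hx1 y1 hy1
            exact path_ineq hu ht0 ht1 hs hs' hx0 hy0 hx1 hy1
    _ = 5 * (3 * J2 PP + J2 (fun x y => ux (s, x, y) ^ 2) +
          J2 (fun x y => uy (s', x, y) ^ 2)) := by
        simp_rw [step1]
        rw [step2, e3, e4]
        ring

end

/-! ### The estimate for the metrics -/

lemma setInt_slab {f : P → ℝ} (hf : Continuous f) {a b : ℝ} (hab : a ≤ b) :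
    ∫ p in Icc a b ×ˢ Icc (0 : ℝ) 1 ×ˢ Icc (0 : ℝ) 1, f p =
      ∫ t in a..b, J2 (fun x y => f (t, x, y)) := by
  have h1 : IntegrableOn f (Icc a b ×ˢ Icc (0 : ℝ) 1 ×ˢ Icc (0 : ℝ) 1)
      ((volume : Measure ℝ).prod (volume : Measure (ℝ × ℝ))) :=
    hf.continuousOn.integrableOn_compact (isCompact_Icc.prod (isCompact_Icc.prod isCompact_Icc))
  rw [Measure.volume_eq_prod, setIntegral_prod f h1, integral_Icc_eq_integral_Ioc,
    ← intervalIntegral.integral_of_le hab]
  congr 1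
  funext t
  have h2 : IntegrableOn (fun q : ℝ × ℝ => f (t, q)) (Icc (0 : ℝ) 1 ×ˢ Icc (0 : ℝ) 1)
      ((volume : Measure ℝ).prod (volume : Measure ℝ)) :=
    (hf.comp (by fun_prop)).continuousOn.integrableOn_compact (isCompact_Icc.prod isCompact_Icc)
  rw [Measure.volume_eq_prod, setIntegral_prod _ h2, integral_Icc_eq_integral_Ioc,
    ← intervalIntegral.integral_of_le zero_le_one]
  unfold J2 Jn
  congr 1
  funext x
  rw [integral_Icc_eq_integral_Ioc, ← intervalIntegral.integral_of_le zero_le_one]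

lemma setInt_square {f : ℝ × ℝ → ℝ} (hf : Continuous f) :
    ∫ q in square, f q = J2 (fun x y => f (x, y)) := by
  have h2 : IntegrableOn f (Icc (0 : ℝ) 1 ×ˢ Icc (0 : ℝ) 1)
      ((volume : Measure ℝ).prod (volume : Measure ℝ)) :=
    hf.continuousOn.integrableOn_compact (isCompact_Icc.prod isCompact_Icc)
  unfold square
  rw [Measure.volume_eq_prod, setIntegral_prod _ h2, integral_Icc_eq_integral_Ioc,
    ← intervalIntegral.integral_of_le zero_le_one]
  unfold J2 Jn
  congr 1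
  funext x
  rw [integral_Icc_eq_integral_Ioc, ← intervalIntegral.integral_of_le zero_le_one]

lemma slab_swap {f : P → ℝ} (hf : Continuous f) :
    ∫ t in (0 : ℝ)..1, J2 (fun x y => f (t, x, y)) = J2 (fun x y => Jn (fun t => f (t, x, y))) := by
  have h1 : ∫ t in (0 : ℝ)..1, J2 (fun x y => f (t, x, y)) =
      Jn (fun t => Jn (fun x => Jn (fun y => f (t, x, y)))) := rfl
  rw [h1]
  have c1 : Continuous (fun p : ℝ × ℝ => Jn (fun y => f (p.1, p.2, y))) := by
    unfold Jn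
    exact intervalIntegral.continuous_parametric_intervalIntegral_of_continuous'
      (show Continuous (fun q : (ℝ × ℝ) × ℝ => f (q.1.1, q.1.2, q.2)) by fun_prop) _ _
  rw [Jn_swap (f := fun t x => Jn (fun y => f (t, x, y))) c1]
  unfold J2
  congr 1
  funext x
  exact Jn_swap (f := fun t y => f (t, x, y)) (by fun_prop)

lemma sq_le_K (n : ℕ) {t : ℝ} (ht : t ∈ Icc (1 / 8 : ℝ) (1 / 4)) : ((n : ℝ) + 1) ^ 2 ≤ K n t := by
  have hpi := Real.pi_pos
  have h1 : 2 / Real.pi * (2 * Real.pi * t) ≤ Real.sin (2 * Real.pi * t) := by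
    apply Real.mul_le_sin
    · have := ht.1; positivity
    · nlinarith [ht.2]
  have h2 : 2 / Real.pi * (2 * Real.pi * t) = 4 * t := by field_simp; ring
  have h3 : (1 : ℝ) / 2 ≤ Real.sin (2 * Real.pi * t) := by linarith [ht.1]
  have hn : (0 : ℝ) ≤ n := Nat.cast_nonneg n
  have h4 : (n : ℝ) + 1 ≤ Real.exp n := Real.add_one_le_exp _
  calc ((n : ℝ) + 1) ^ 2 ≤ Real.exp n ^ 2 := by gcongr
    _ = Real.exp (2 * n) := by rw [← Real.exp_nat_mul]; norm_num
    _ ≤ K n t := by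
        unfold K
        apply Real.exp_le_exp.mpr
        nlinarith

lemma K_shift (n : ℕ) (t : ℝ) : K n (t + 1 / 2) = (K n t)⁻¹ := by
  unfold K
  rw [← Real.exp_neg]
  congr 1
  have : 2 * Real.pi * (t + 1 / 2) = 2 * Real.pi * t + Real.pi := by ring
  rw [this, Real.sin_add_pi]
  ring

lemma sq_le_Kinv (n : ℕ) {t : ℝ} (ht : t ∈ Icc (5 / 8 : ℝ) (3 / 4)) :
    ((n : ℝ) + 1) ^ 2 ≤ (K n t)⁻¹ := by
  have h1 := sq_le_K n (t := t - 1 / 2) ⟨by linarith [ht.1], by linarith [ht.2]⟩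
  have h2 := K_shift n (t - 1 / 2)
  have h3 : t - 1 / 2 + 1 / 2 = t := by ring
  rw [h3] at h2
  rw [h2, inv_inv]
  exact h1

lemma det_metric (n : ℕ) (p : P) : (metric n p).det = ((n : ℝ) + 1)⁻¹ ^ 2 := by
  unfold metric
  rw [Matrix.det_diagonal, Fin.prod_univ_three]
  have := (K_pos n p.1).ne'
  simp
  field_simp

lemma sqrt_det (n : ℕ) (p : P) : Real.sqrt (metric n p).det = ((n : ℝ) + 1)⁻¹ := by
  rw [det_metric, Real.sqrt_sq (by positivity)]

lemma sqrt_tang (n : ℕ) (p : P) : Real.sqrt (tang (metric n p)).det = 1 := by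
  have h : (tang (metric n p)).det = 1 := by
    unfold tang metric
    rw [Matrix.det_fin_two]
    have := (K_pos n p.1).ne'
    simp [Matrix.diagonal, this]
  rw [h, Real.sqrt_one]

lemma gradSq_metric (n : ℕ) (u : P → ℝ) (p : P) : gradSq (metric n) u p =
    ((n : ℝ) + 1) ^ 2 * fderiv ℝ u p (1, 0, 0) ^ 2 + K n p.1 * fderiv ℝ u p (0, 1, 0) ^ 2 +
      (K n p.1)⁻¹ * fderiv ℝ u p (0, 0, 1) ^ 2 := by
  have hinv : (metric n p)⁻¹ =
      Matrix.diagonal ![((n : ℝ) + 1) ^ 2, K n p.1, (K n p.1)⁻¹] := by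
    apply Matrix.inv_eq_right_inv
    unfold metric
    rw [Matrix.diagonal_mul_diagonal, ← Matrix.diagonal_one]
    congr 1
    funext i
    have h1 := (K_pos n p.1).ne'
    have h2 : ((n : ℝ) + 1) ≠ 0 := by positivity
    fin_cases i
    · simp; field_simp
    · simp [h1]
    · simp [h1]
  unfold gradSq
  rw [hinv]
  simp [du, Matrix.mulVec_diagonal, dotProduct, Fin.sum_univ_three]
  ring

lemma volInt_metric (n : ℕ) (u : P → ℝ) : volInt (metric n) (gradSq (metric n) u) =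
    ∫ p in cell, (((n : ℝ) + 1) * fderiv ℝ u p (1, 0, 0) ^ 2 +
      ((n : ℝ) + 1)⁻¹ * K n p.1 * fderiv ℝ u p (0, 1, 0) ^ 2 +
      ((n : ℝ) + 1)⁻¹ * (K n p.1)⁻¹ * fderiv ℝ u p (0, 0, 1) ^ 2) := by
  unfold volInt
  congr 1
  funext p
  rw [gradSq_metric, sqrt_det]
  have h2 : ((n : ℝ) + 1) ≠ 0 := by positivity
  field_simp

lemma bdryInt_metric (n : ℕ) {f : P → ℝ} (hf : Continuous f) : bdryInt (metric n) f =
    J2 (fun x y => f (0, x, y)) + J2 (fun x y => f (1, x, y)) := by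
  unfold bdryInt
  simp_rw [sqrt_tang, mul_one]
  rw [setInt_square (f := fun q => f (0, q)) (by fun_prop),
    setInt_square (f := fun q => f (1, q)) (by fun_prop)]

section

variable {u : P → ℝ} (hu : ContDiff ℝ 1 u)

include hu

lemma energy_ge (n : ℕ) {a b : ℝ} (ha : 0 ≤ a) (hab : a ≤ b) (hb : b ≤ 1) {g : P → ℝ}
    (hg : Continuous g)
    (h : ∀ p : P, p.1 ∈ Icc a b → g p ≤ (((n : ℝ) + 1) * fderiv ℝ u p (1, 0, 0) ^ 2 +
      ((n : ℝ) + 1)⁻¹ * K n p.1 * fderiv ℝ u p (0, 1, 0) ^ 2 +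
      ((n : ℝ) + 1)⁻¹ * (K n p.1)⁻¹ * fderiv ℝ u p (0, 0, 1) ^ 2)) :
    ∫ t in a..b, J2 (fun x y => g (t, x, y)) ≤ volInt (metric n) (gradSq (metric n) u) := by
  rw [volInt_metric, ← setInt_slab hg hab]
  set F : P → ℝ := fun p => (((n : ℝ) + 1) * fderiv ℝ u p (1, 0, 0) ^ 2 +
      ((n : ℝ) + 1)⁻¹ * K n p.1 * fderiv ℝ u p (0, 1, 0) ^ 2 +
      ((n : ℝ) + 1)⁻¹ * (K n p.1)⁻¹ * fderiv ℝ u p (0, 0, 1) ^ 2) with hF
  have cut : Continuous (fun p => fderiv ℝ u p (1, 0, 0)) := cont_dir hu _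
  have cux : Continuous (fun p => fderiv ℝ u p (0, 1, 0)) := cont_dir hu _
  have cuy : Continuous (fun p => fderiv ℝ u p (0, 0, 1)) := cont_dir hu _
  have cK : Continuous (fun p : P => K n p.1) := (K_cont n).comp continuous_fst
  have cKi : Continuous (fun p : P => (K n p.1)⁻¹) := cK.inv₀ (fun p => (K_pos n p.1).ne')
  have cF : Continuous F := by
    rw [hF]; fun_prop
  have hsub : Icc a b ×ˢ Icc (0 : ℝ) 1 ×ˢ Icc (0 : ℝ) 1 ⊆ cell :=
    Set.prod_mono (Icc_subset_Icc ha hb) le_rfl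
  have hcell : IsCompact cell := isCompact_Icc.prod (isCompact_Icc.prod isCompact_Icc)
  calc ∫ p in Icc a b ×ˢ Icc (0 : ℝ) 1 ×ˢ Icc (0 : ℝ) 1, g p
      ≤ ∫ p in Icc a b ×ˢ Icc (0 : ℝ) 1 ×ˢ Icc (0 : ℝ) 1, F p := by
        apply setIntegral_mono_on
        · exact (hg.continuousOn.integrableOn_compact hcell).mono_set hsub
        · exact (cF.continuousOn.integrableOn_compact hcell).mono_set hsub
        · exact measurableSet_Icc.prod (measurableSet_Icc.prod measurableSet_Icc)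
        · intro p hp
          exact h p hp.1
    _ ≤ ∫ p in cell, F p := by
        apply setIntegral_mono_set (cF.continuousOn.integrableOn_compact hcell)
        · apply Eventually.of_forall
          intro p
          have := K_pos n p.1
          show 0 ≤ F p
          rw [hF]; positivity
        · exact hsub.eventuallyLE

lemma D_le (n : ℕ) {t0 t1 : ℝ} (ht0 : t0 ∈ Icc (0 : ℝ) 1) (ht1 : t1 ∈ Icc (0 : ℝ) 1) :
    J2 (fun x y => u (t0, x, y) ^ 2) + J2 (fun x y => u (t1, x, y) ^ 2)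
      - 2 * J2 (fun x y => u (t0, x, y)) * J2 (fun x y => u (t1, x, y)) ≤
    95 / ((n : ℝ) + 1) * volInt (metric n) (gradSq (metric n) u) := by
  have cut : Continuous (fun p => fderiv ℝ u p (1, 0, 0)) := cont_dir hu _
  have cux : Continuous (fun p => fderiv ℝ u p (0, 1, 0)) := cont_dir hu _
  have cuy : Continuous (fun p => fderiv ℝ u p (0, 0, 1)) := cont_dir hu _
  set D := J2 (fun x y => u (t0, x, y) ^ 2) + J2 (fun x y => u (t1, x, y) ^ 2)
      - 2 * J2 (fun x y => u (t0, x, y)) * J2 (fun x y => u (t1, x, y)) with hD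
  set E := volInt (metric n) (gradSq (metric n) u) with hE
  set Pb := J2 (fun x y => Jn (fun t => fderiv ℝ u (t, x, y) (1, 0, 0) ^ 2)) with hPb
  set q : ℝ → ℝ := fun s => J2 (fun x y => fderiv ℝ u (s, x, y) (0, 1, 0) ^ 2) with hq
  set r : ℝ → ℝ := fun s => J2 (fun x y => fderiv ℝ u (s, x, y) (0, 0, 1) ^ 2) with hr
  have hn : (0 : ℝ) < (n : ℝ) + 1 := by positivity
  have cq : Continuous q := J2_cont (f := fun s x y => fderiv ℝ u (s, x, y) (0, 1, 0) ^ 2)
    (by exact (cux.comp (by fun_prop)).pow 2)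
  have cr : Continuous r := J2_cont (f := fun s x y => fderiv ℝ u (s, x, y) (0, 0, 1) ^ 2)
    (by exact (cuy.comp (by fun_prop)).pow 2)
  have hmain : ∀ s ∈ Icc (1 / 8 : ℝ) (1 / 4), ∀ s' ∈ Icc (5 / 8 : ℝ) (3 / 4),
      D ≤ 5 * (3 * Pb + q s + r s') := by
    intro s hs s' hs'
    exact main_ineq hu ht0 ht1 ⟨by linarith [hs.1], by linarith [hs.2]⟩
      ⟨by linarith [hs'.1], by linarith [hs'.2]⟩
  -- averages
  have hA : ∀ s' ∈ Icc (5 / 8 : ℝ) (3 / 4),
      D - 15 * Pb - 40 * (∫ s in (1 / 8 : ℝ)..(1 / 4), q s) ≤ 5 * r s' := by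
    intro s' hs'
    have h1 : ∫ s in (1 / 8 : ℝ)..(1 / 4), (D - 15 * Pb - 5 * r s') ≤
        ∫ s in (1 / 8 : ℝ)..(1 / 4), 5 * q s := by
      apply intervalIntegral.integral_mono_on (by norm_num)
        (Continuous.intervalIntegrable (by fun_prop) _ _)
        (Continuous.intervalIntegrable (by fun_prop) _ _)
      intro s hs
      have := hmain s hs s' hs'
      linarith
    rw [intervalIntegral.integral_const, intervalIntegral.integral_const_mul, smul_eq_mul] at h1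
    norm_num at h1
    linarith
  have hB : D - 15 * Pb - 40 * (∫ s in (1 / 8 : ℝ)..(1 / 4), q s) ≤
      40 * ∫ s in (5 / 8 : ℝ)..(3 / 4), r s := by
    have h1 : ∫ s in (5 / 8 : ℝ)..(3 / 4), (D - 15 * Pb - 40 * (∫ s in (1 / 8 : ℝ)..(1 / 4), q s)) ≤
        ∫ s in (5 / 8 : ℝ)..(3 / 4), 5 * r s := by
      apply intervalIntegral.integral_mono_on (by norm_num)
        (Continuous.intervalIntegrable (by fun_prop) _ _)
        (Continuous.intervalIntegrable (by fun_prop) _ _)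
      intro s hs
      exact hA s hs
    rw [intervalIntegral.integral_const, intervalIntegral.integral_const_mul, smul_eq_mul] at h1
    norm_num at h1
    linarith
  -- energy bounds
  have e1 : ((n : ℝ) + 1) * Pb ≤ E := by
    have h := energy_ge hu n (a := 0) (b := 1) le_rfl zero_le_one le_rfl
      (g := fun p => ((n : ℝ) + 1) * fderiv ℝ u p (1, 0, 0) ^ 2) (by fun_prop) (by
        intro p _
        have := K_pos n p.1
        have h1 : 0 ≤ ((n : ℝ) + 1)⁻¹ * K n p.1 * fderiv ℝ u p (0, 1, 0) ^ 2 := by positivity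
        have h2 : 0 ≤ ((n : ℝ) + 1)⁻¹ * (K n p.1)⁻¹ * fderiv ℝ u p (0, 0, 1) ^ 2 := by positivity
        linarith)
    rw [slab_swap (f := fun p => ((n : ℝ) + 1) * fderiv ℝ u p (1, 0, 0) ^ 2) (by fun_prop)] at h
    simp_rw [Jn_mul] at h
    rw [J2_mul] at h
    exact h
  have e2 : ((n : ℝ) + 1) * (∫ s in (1 / 8 : ℝ)..(1 / 4), q s) ≤ E := by
    have h := energy_ge hu n (a := 1 / 8) (b := 1 / 4) (by norm_num) (by norm_num) (by norm_num)
      (g := fun p => ((n : ℝ) + 1) * fderiv ℝ u p (0, 1, 0) ^ 2) (by fun_prop) (by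
        intro p hp
        have := K_pos n p.1
        have h0 := sq_le_K n hp
        have h1 : 0 ≤ ((n : ℝ) + 1) * fderiv ℝ u p (1, 0, 0) ^ 2 := by positivity
        have h2 : 0 ≤ ((n : ℝ) + 1)⁻¹ * (K n p.1)⁻¹ * fderiv ℝ u p (0, 0, 1) ^ 2 := by positivity
        have h3 : ((n : ℝ) + 1) ≤ ((n : ℝ) + 1)⁻¹ * K n p.1 := by
          rw [inv_mul_eq_div, le_div_iff₀ hn]; nlinarith
        have h4 := mul_le_mul_of_nonneg_right h3 (sq_nonneg (fderiv ℝ u p (0, 1, 0)))
        linarith)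
    simp_rw [J2_mul] at h
    rw [intervalIntegral.integral_const_mul] at h
    exact h
  have e3 : ((n : ℝ) + 1) * (∫ s in (5 / 8 : ℝ)..(3 / 4), r s) ≤ E := by
    have h := energy_ge hu n (a := 5 / 8) (b := 3 / 4) (by norm_num) (by norm_num) (by norm_num)
      (g := fun p => ((n : ℝ) + 1) * fderiv ℝ u p (0, 0, 1) ^ 2) (by fun_prop) (by
        intro p hp
        have := K_pos n p.1
        have h0 := sq_le_Kinv n hp
        have h1 : 0 ≤ ((n : ℝ) + 1) * fderiv ℝ u p (1, 0, 0) ^ 2 := by positivity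
        have h2 : 0 ≤ ((n : ℝ) + 1)⁻¹ * K n p.1 * fderiv ℝ u p (0, 1, 0) ^ 2 := by positivity
        have h3 : ((n : ℝ) + 1) ≤ ((n : ℝ) + 1)⁻¹ * (K n p.1)⁻¹ := by
          rw [inv_mul_eq_div, le_div_iff₀ hn]; nlinarith
        have h4 := mul_le_mul_of_nonneg_right h3 (sq_nonneg (fderiv ℝ u p (0, 0, 1)))
        linarith)
    simp_rw [J2_mul] at h
    rw [intervalIntegral.integral_const_mul] at h
    exact h
  have e4 : ((n : ℝ) + 1) * D ≤ 95 * E := by
    have : D ≤ 15 * Pb + 40 * (∫ s in (1 / 8 : ℝ)..(1 / 4), q s) +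
      40 * ∫ s in (5 / 8 : ℝ)..(3 / 4), r s := by linarith
    nlinarith
  rw [div_mul_eq_mul_div, le_div_iff₀ hn]
  linarith

end

lemma rayleigh_ge (n : ℕ) {u : P → ℝ} (hu : IsTest (metric n) u) :
    ((n : ℝ) + 1) / 95 ≤
      volInt (metric n) (gradSq (metric n) u) / bdryInt (metric n) (fun p => u p ^ 2) := by
  have hn : (0 : ℝ) < (n : ℝ) + 1 := by positivity
  have h0 : (0 : ℝ) ∈ Icc (0 : ℝ) 1 := ⟨le_rfl, zero_le_one⟩
  have h1 : (1 : ℝ) ∈ Icc (0 : ℝ) 1 := ⟨zero_le_one, le_rfl⟩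
  have huc := hu.contDiff.continuous
  have hm := hu.mean
  have hne := hu.ne_zero
  rw [bdryInt_metric n huc] at hm
  rw [bdryInt_metric n (by fun_prop)] at hne ⊢
  have d00 := D_le hu.contDiff n h0 h0
  have d01 := D_le hu.contDiff n h0 h1
  have d11 := D_le hu.contDiff n h1 h1
  set b0 := J2 (fun x y => u (0, x, y) ^ 2)
  set b1 := J2 (fun x y => u (1, x, y) ^ 2)
  set m0 := J2 (fun x y => u (0, x, y))
  set m1 := J2 (fun x y => u (1, x, y))
  set E := volInt (metric n) (gradSq (metric n) u)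
  have hb0 : 0 ≤ b0 := by
    have := J2_mono (f := fun _ _ => 0) (g := fun x y => u (0, x, y) ^ 2) continuous_const
      (by fun_prop) (fun x _ y _ => sq_nonneg _)
    rwa [J2_const] at this
  have hb1 : 0 ≤ b1 := by
    have := J2_mono (f := fun _ _ => 0) (g := fun x y => u (1, x, y) ^ 2) continuous_const
      (by fun_prop) (fun x _ y _ => sq_nonneg _)
    rwa [J2_const] at this
  have hpos : 0 < b0 + b1 := lt_of_le_of_ne (by positivity) (Ne.symm hne)
  have hsum : 4 * (b0 + b1) ≤ 4 * (95 / ((n : ℝ) + 1) * E) := by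
    have hm' : m1 = -m0 := by linarith
    rw [hm'] at d01 d11
    nlinarith
  rw [le_div_iff₀ hpos]
  have h5 : b0 + b1 ≤ 95 / ((n : ℝ) + 1) * E := by linarith
  calc ((n : ℝ) + 1) / 95 * (b0 + b1) ≤ ((n : ℝ) + 1) / 95 * (95 / ((n : ℝ) + 1) * E) := by
        gcongr
    _ = E := by field_simp

lemma exists_test (n : ℕ) : IsTest (metric n) (fun p => 2 * p.1 - 1) where
  contDiff := by fun_prop
  periodic := fun t x y => ⟨rfl, rfl⟩
  mean := by
    rw [bdryInt_metric n (by fun_prop)]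
    norm_num [J2_const]
  ne_zero := by
    rw [bdryInt_metric n (by fun_prop)]
    norm_num [J2_const]

lemma sigma1_ge (n : ℕ) : ((n : ℝ) + 1) / 95 ≤ sigma1 (metric n) := by
  unfold sigma1
  apply le_csInf
  · exact ⟨_, _, exists_test n, rfl⟩
  · rintro r ⟨u, hu, rfl⟩
    exact rayleigh_ge n hu

lemma vol_metric (n : ℕ) : volInt (metric n) (fun _ => 1) = ((n : ℝ) + 1)⁻¹ := by
  unfold volInt
  simp_rw [sqrt_det]
  unfold cell
  rw [setInt_slab (f := fun _ => 1 * ((n : ℝ) + 1)⁻¹) continuous_const zero_le_one]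
  simp_rw [J2_const]
  simp

lemma area_metric (n : ℕ) : bdryInt (metric n) (fun _ => 1) = 2 := by
  rw [bdryInt_metric n continuous_const, J2_const]; norm_num

/-- **A compact `3`-manifold with large first Steklov eigenvalue and bounded volumes.**
On the thickened torus `M = [0,1] × (ℝ/ℤ)²` there are smooth Riemannian metrics `G n` with
`Vol(M, G n) ≤ 1` and `Vol(∂M, G n) = 2` for all `n`, and `σ₁(M, G n) → ∞`. -/
theorem result : ∃ G : ℕ → P → Matrix (Fin 3) (Fin 3) ℝ, (∀ n, IsMetric (G n)) ∧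
    (∀ n, volInt (G n) (fun _ => 1) ≤ 1 ∧ bdryInt (G n) (fun _ => 1) = 2) ∧
    Tendsto (fun n => sigma1 (G n)) atTop atTop := by
  refine ⟨metric, isMetric, fun n => ⟨?_, area_metric n⟩, ?_⟩
  · rw [vol_metric]
    apply inv_le_one_of_one_le₀
    have : (0 : ℝ) ≤ n := Nat.cast_nonneg n
    linarith
  · apply tendsto_atTop_mono (sigma1_ge)
    apply Tendsto.atTop_div_const (by norm_num)
    exact tendsto_atTop_add_const_right _ _ tendsto_natCast_atTop_atTop

end Pool.Agent.Results.MP_441052_gt.ThickenedTorus
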